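import Mathlib

set_option autoImplicit false

namespace Pool.Agent.H880652

/-- strict order relation, numbers -/
def ltN : List (ℕ × ℕ) :=
  [(0,4),(0,6),(1,5),(1,6),(2,3),(2,4),(2,5),(2,6),(3,4),(3,5)]

def lts : List (Fin 7 × Fin 7) :=
  [(0,4),(0,6),(1,5),(1,6),(2,3),(2,4),(2,5),(2,6),(3,4),(3,5)]

def cnt (σ : Equiv.Perm (Fin 7)) : ℕ := lts.countP (fun p => decide (σ p.1 < σ p.2))

def cntL (l : List (Fin 7)) : ℕ :=
  ltN.countP (fun p => Nat.blt (l.getD p.1 0).val (l.getD p.2 0).val)

theorem cnt_eq (σ : Equiv.Perm (Fin 7)) : cnt σ = cntL ((List.finRange 7).map σ) := by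
  unfold cnt cntL lts ltN
  have hget : ∀ i : Fin 7, ((List.finRange 7).map σ).getD i.val 0 = σ i := by
    intro i
    rw [List.getD_eq_getElem _ _ (by simp)]
    simp
    rfl
  have h0 := hget 0
  have h1 := hget 1
  have h2 := hget 2
  have h3 := hget 3
  have h4 := hget 4
  have h5 := hget 5
  have h6 := hget 6
  have hb : ∀ a b : Fin 7, decide (a < b) = Nat.blt a.val b.val := by decide
  simp only [List.countP_cons, List.countP_nil]
  simp only [hb]
  change _ = _
  simp only [show ((0 : Fin 7).val) = 0 from rfl, show ((1 : Fin 7).val) = 1 from rfl,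
    show ((2 : Fin 7).val) = 2 from rfl, show ((3 : Fin 7).val) = 3 from rfl,
    show ((4 : Fin 7).val) = 4 from rfl, show ((5 : Fin 7).val) = 5 from rfl,
    show ((6 : Fin 7).val) = 6 from rfl] at h0 h1 h2 h3 h4 h5 h6
  rw [h0, h1, h2, h3, h4, h5, h6]

/-- all arrangements of `Fin 7` -/
def L7 : List (List (Fin 7)) := (List.finRange 7).permutations'

theorem L7_nodup : L7.Nodup := by
  unfold L7
  exact (List.permutations_perm_permutations' _).nodup_iff.mp
    (List.nodup_permutations _ (List.nodup_finRange 7))

theorem countP_card (L : List (List (Fin 7))) (hL : L.Nodup) (i : ℕ) :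
    L.countP (fun l => cntL l == i) = (L.toFinset.filter (fun l => cntL l = i)).card := by
  rw [List.countP_eq_length_filter]
  rw [← List.toFinset_card_of_nodup (hL.filter _)]
  congr 1
  ext l
  simp

theorem card_eq (i : ℕ) :
    (Finset.univ.filter (fun σ : Equiv.Perm (Fin 7) => cnt σ = i)).card
      = L7.countP (fun l => cntL l == i) := by
  classical
  have h1 := countP_card L7 L7_nodup i
  rw [h1]
  refine Finset.card_bij (fun σ _ => (List.finRange 7).map σ) ?_ ?_ ?_
  · intro σ hσ
    rw [Finset.mem_filter] at hσ ⊢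
    refine ⟨?_, by rw [← cnt_eq]; exact hσ.2⟩
    rw [List.mem_toFinset]
    unfold L7
    rw [List.mem_permutations']
    refine (List.perm_ext_iff_of_nodup ?_ (List.nodup_finRange 7)).mpr ?_
    · exact (List.nodup_finRange 7).map σ.injective
    · intro x
      simp only [List.mem_map, List.mem_finRange, true_and, iff_true]
      exact ⟨σ.symm x, by simp⟩
  · intro σ _ τ _ h
    ext x
    have : σ x = τ x := by
      have h2 := List.map_inj_left.mp h x (List.mem_finRange x)
      exact h2
    rw [this]
  · intro l hl
    rw [Finset.mem_filter, List.mem_toFinset] at hl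
    obtain ⟨hl1, hl2⟩ := hl
    unfold L7 at hl1
    rw [List.mem_permutations'] at hl1
    have hlen : l.length = 7 := by rw [hl1.length_eq]; simp
    have hnd : l.Nodup := hl1.nodup_iff.mpr (List.nodup_finRange 7)
    have hinj : Function.Injective (fun i : Fin 7 => l[i.val]'(by omega)) := by
      intro a b hab
      have := (List.Nodup.getElem_inj_iff hnd).mp hab
      exact Fin.ext this
    let σ : Equiv.Perm (Fin 7) := Equiv.ofBijective _ (Finite.injective_iff_bijective.mp hinj)
    have hmap : (List.finRange 7).map σ = l := by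
      apply List.ext_getElem
      · simp [hlen]
      · intro k hk1 hk2
        simp [σ]
    refine ⟨σ, ?_, hmap⟩
    rw [Finset.mem_filter]
    exact ⟨Finset.mem_univ _, by rw [cnt_eq, hmap]; exact hl2⟩

theorem n4 : L7.countP (fun l => cntL l == 4) = 792 := by decide +kernel
theorem n5 : L7.countP (fun l => cntL l == 5) = 764 := by decide +kernel
theorem n6 : L7.countP (fun l => cntL l == 6) = 792 := by decide +kernel

end Pool.Agent.H880652
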